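import Pool.Agent.V1155.LocSL

set_option autoImplicit false

/-!
A commutative local ring `A` whose maximal ideal is not nil, with an automorphism `φ` such that
`A((x, φ))` is a local ring. Here `A` consists of the families of power series indexed by `ℤ` with
a common constant term, all but finitely many of which are constant, and `φ` is the shift.
-/

namespace Pool.Agent.Results.MP_669787_al.LocalNotNil

open Pool.Agent.V1155

/-- Power series over the rational numbers. -/
abbrev B : Type := PowerSeries ℚ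

/-- The ring of families of power series. -/
def A : Subring (ℤ → B) where
  carrier := {f | ∃ c : ℚ, (∀ p, PowerSeries.constantCoeff (f p) = c) ∧
    {p | f p ≠ PowerSeries.C c}.Finite}
  one_mem' := ⟨1, fun p => by simp, by simp⟩
  zero_mem' := ⟨0, fun p => by simp, by simp⟩
  add_mem' := by
    rintro f g ⟨c, hc, hcf⟩ ⟨d, hd, hdf⟩
    refine ⟨c + d, fun p => by rw [Pi.add_apply, map_add, hc, hd], (hcf.union hdf).subset ?_⟩
    intro p hp
    by_contra hcon
    simp only [Set.mem_union, Set.mem_ofPred_eq, not_or, not_not] at hcon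
    apply hp
    rw [Pi.add_apply, hcon.1, hcon.2, map_add]
  mul_mem' := by
    rintro f g ⟨c, hc, hcf⟩ ⟨d, hd, hdf⟩
    refine ⟨c * d, fun p => by rw [Pi.mul_apply, map_mul, hc, hd], (hcf.union hdf).subset ?_⟩
    intro p hp
    by_contra hcon
    simp only [Set.mem_union, Set.mem_ofPred_eq, not_or, not_not] at hcon
    apply hp
    rw [Pi.mul_apply, hcon.1, hcon.2, map_mul]
  neg_mem' := by
    rintro f ⟨c, hc, hcf⟩
    refine ⟨-c, fun p => by rw [Pi.neg_apply, map_neg, hc], hcf.subset ?_⟩
    intro p hp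
    by_contra hcon
    simp only [Set.mem_ofPred_eq, not_not] at hcon
    apply hp
    rw [Pi.neg_apply, hcon, map_neg]

theorem mem_iff (f : ℤ → B) : f ∈ A ↔ ∃ c : ℚ, (∀ p, PowerSeries.constantCoeff (f p) = c) ∧
    {p | f p ≠ PowerSeries.C c}.Finite := Iff.rfl

theorem shift_mem (f : ℤ → B) (hf : f ∈ A) (n : ℤ) : (fun p => f (p + n)) ∈ A := by
  obtain ⟨c, hc, hcf⟩ := hf
  refine ⟨c, fun p => hc _, ?_⟩
  exact hcf.preimage (Function.Injective.injOn (add_left_injective n))

/-- The shift. -/
def shift : A ≃+* A where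
  toFun f := ⟨fun p => f.1 (p + 1), shift_mem f.1 f.2 1⟩
  invFun f := ⟨fun p => f.1 (p + (-1)), shift_mem f.1 f.2 (-1)⟩
  left_inv f := by
    apply Subtype.ext; funext p
    change f.1 (p + (-1) + 1) = f.1 p
    rw [neg_add_cancel_right]
  right_inv f := by
    apply Subtype.ext; funext p
    change f.1 (p + 1 + (-1)) = f.1 p
    rw [add_neg_cancel_right]
  map_mul' f g := rfl
  map_add' f g := rfl

theorem shift_symm_apply (f : A) (p : ℤ) : (shift.symm f).1 p = f.1 (p + (-1)) := rfl

theorem pw_shift (n : ℤ) (f : A) (p : ℤ) : (SL.pw shift n f).1 p = f.1 (p + n) := by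
  induction n using Int.induction_on generalizing f p with
  | zero => rw [SL.pw_zero, add_zero]
  | succ n ih =>
    rw [SL.pw_add, ih, SL.pw_one]
    change f.1 (p + n + 1) = _
    rw [add_assoc]
  | pred n ih =>
    rw [sub_eq_add_neg, SL.pw_add, ih]
    have h1 : SL.pw shift (-1) f = shift.symm f := by
      apply shift.injective
      rw [← SL.pw_one (φ := shift) (SL.pw shift (-1) f), SL.pw_pw_neg, RingEquiv.apply_symm_apply]
    rw [h1, shift_symm_apply, add_assoc]

/-- The common constant term. -/
noncomputable def cst : A →+* ℚ :=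
  (PowerSeries.constantCoeff (R := ℚ)).comp ((Pi.evalRingHom (fun _ : ℤ => B) 0).comp A.subtype)

theorem cst_apply (f : A) (p : ℤ) : PowerSeries.constantCoeff (f.1 p) = cst f := by
  obtain ⟨c, hc, -⟩ := f.2
  exact (hc p).trans (hc 0).symm

theorem finite_supp (f : A) : {p | f.1 p ≠ PowerSeries.C (cst f)}.Finite := by
  obtain ⟨c, hc, hcf⟩ := f.2
  have : cst f = c := hc 0
  rw [this]; exact hcf

theorem isUnit_iff (f : A) : IsUnit f ↔ cst f ≠ 0 := by
  constructor
  · intro h
    exact (h.map cst).ne_zero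
  · intro h
    have hinv : (fun p => (f.1 p)⁻¹) ∈ A := by
      refine ⟨(cst f)⁻¹, fun p => by rw [PowerSeries.constantCoeff_inv, cst_apply], ?_⟩
      refine (finite_supp f).subset ?_
      intro p hp hcon
      apply hp
      change (f.1 p)⁻¹ = _
      change f.1 p = _ at hcon
      have hne : PowerSeries.constantCoeff (f.1 p) ≠ 0 := by rw [cst_apply]; exact h
      rw [PowerSeries.inv_eq_iff_mul_eq_one hne, hcon, ← map_mul, inv_mul_cancel₀ h, map_one]
    refine IsUnit.of_mul_eq_one ⟨_, hinv⟩ ?_
    apply Subtype.ext; funext p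
    change f.1 p * (f.1 p)⁻¹ = 1
    refine PowerSeries.mul_inv_cancel _ ?_
    rw [cst_apply]; exact h

instance : IsLocalRing A := by
  have : Nontrivial A := ⟨⟨0, 1, fun h => by
    have := congrArg cst h
    rw [map_zero, map_one] at this
    exact zero_ne_one this⟩⟩
  refine ⟨fun {a b} hab => ?_⟩
  by_contra hcon
  rw [not_or, isUnit_iff, isUnit_iff, not_not, not_not] at hcon
  have := congrArg cst hab
  rw [map_add, hcon.1, hcon.2, map_one, add_zero] at this
  exact zero_ne_one this

theorem mem_max_iff (f : A) : f ∈ IsLocalRing.maximalIdeal A ↔ cst f = 0 := by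
  rw [IsLocalRing.mem_maximalIdeal, mem_nonunits_iff, isUnit_iff, not_not]

/-- A family with one entry. -/
noncomputable def sg (p : ℤ) (b : B) : ℤ → B := fun q => if q = p then b else 0

theorem sg_self (p : ℤ) (b : B) : sg p b p = b := if_pos rfl

theorem sg_ne {p q : ℤ} (b : B) (h : q ≠ p) : sg p b q = 0 := if_neg h

theorem single_mem (p : ℤ) (b : B) (hb : PowerSeries.constantCoeff b = 0) :
    (sg p b) ∈ A := by
  refine ⟨0, fun q => ?_, ?_⟩
  · by_cases h : q = p
    · subst h; rw [sg_self, hb]
    · rw [sg_ne _ h, map_zero]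
  · refine (Set.finite_singleton p).subset ?_
    intro q hq
    by_contra h
    apply hq
    rw [map_zero, sg_ne _ h]

theorem wand : Wand shift := by
  intro f hf
  rw [mem_max_iff] at hf
  have hfin := finite_supp f
  rw [hf, map_zero] at hfin
  have hc : ∀ p, PowerSeries.constantCoeff (f.1 p) = 0 := fun p => by rw [cst_apply, hf]
  have hsum : f = ∑ p ∈ hfin.toFinset, (⟨sg p (f.1 p), single_mem p _ (hc p)⟩ : A) := by
    apply Subtype.ext
    rw [AddSubmonoidClass.coe_finsetSum]
    funext q
    rw [Finset.sum_apply]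
    by_cases hq : f.1 q = 0
    · rw [hq, Finset.sum_eq_zero]
      intro p _
      change sg p (f.1 p) q = 0
      by_cases hpq : q = p
      · subst hpq; rw [sg_self, hq]
      · rw [sg_ne _ hpq]
    · rw [Finset.sum_eq_single q]
      · exact (sg_self q (f.1 q)).symm
      · intro p _ hpq
        change sg p (f.1 p) q = 0
        rw [sg_ne _ (Ne.symm hpq)]
      · intro h
        rw [Set.Finite.mem_toFinset] at h
        exact absurd (not_not.1 h) hq
  rw [hsum]
  refine AddSubgroup.sum_mem _ fun p _ => AddSubgroup.subset_closure ⟨?_, ?_⟩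
  · rw [mem_max_iff]
    have := cst_apply (⟨sg p (f.1 p), single_mem p _ (hc p)⟩ : A) p
    rw [← this]
    change PowerSeries.constantCoeff (sg p (f.1 p) p : B) = 0
    rw [sg_self, hc]
  · intro n hn
    apply Subtype.ext; funext q
    change sg p (f.1 p) q *
      (SL.pw shift n (⟨sg p (f.1 p), single_mem p _ (hc p)⟩ : A)).1 q = 0
    rw [pw_shift]
    change sg p (f.1 p) q * sg p (f.1 p) (q + n) = (0 : B)
    by_cases hqp : q = p
    · subst hqp
      rw [sg_ne _ (show q + n ≠ q by omega), mul_zero]
    · rw [sg_ne _ hqp, zero_mul]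

theorem result : ∃ (A : Type) (_ : CommRing A) (φ : A ≃+* A),
    IsLocalRing A ∧ (∃ a ∈ Ring.jacobson A, ¬ IsNilpotent a) ∧
    IsLocalRing (SL A φ) ∧ IsSemisimpleRing (SL A φ ⧸ Ring.jacobson (SL A φ)) := by
  refine ⟨A, inferInstance, shift, inferInstance, ?_, local_SL wand,
    semisimple_quot fun r hr => Jp_of_nonunit wand hr⟩
  refine ⟨⟨sg 0 PowerSeries.X, single_mem 0 _ PowerSeries.constantCoeff_X⟩, ?_, ?_⟩
  · rw [IsLocalRing.ringJacobson_eq_maximalIdeal, mem_max_iff, ← cst_apply _ 0]
    change PowerSeries.constantCoeff (sg 0 PowerSeries.X 0 : B) = 0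
    rw [sg_self, PowerSeries.constantCoeff_X]
  · rintro ⟨n, hn⟩
    have h1 := congrArg (fun f : A => f.1 0) hn
    change (sg 0 PowerSeries.X 0 : B) ^ n = 0 at h1
    rw [sg_self] at h1
    exact pow_ne_zero n PowerSeries.X_ne_zero h1

end Pool.Agent.Results.MP_669787_al.LocalNotNil
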